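import Pool.Agent.Q161.EA.Stm
import Pool.Agent.TH358.SN.Smooth

set_option autoImplicit false

/-!
# Project EA (helper161): job OMG
-/

namespace Pool.Agent.Q195.EA.Omg

open Finset NumberField IsDedekindDomain
open Pool.Agent.Q161.EA

variable {L : Type} [Field L] [NumberField L]

theorem absNorm_eq_prod (α : 𝓞 L) :
    ((Ideal.absNorm (Ideal.span {α}) : ℕ) : ℝ) = ∏ σ : L →ₐ[ℚ] ℂ, ‖σ (α : L)‖ := by
  rw [Ideal.absNorm_span_singleton, Nat.cast_natAbs, Int.cast_abs]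
  have h1 : algebraMap ℚ ℂ (Algebra.norm ℚ (α : L)) = ∏ σ : L →ₐ[ℚ] ℂ, σ (α : L) :=
    Algebra.norm_eq_prod_embeddings ℚ ℂ (α : L)
  rw [← Algebra.coe_norm_int] at h1
  rw [← norm_prod, ← h1]
  simp

theorem absNorm_le {α : 𝓞 L} {X : ℝ} (h : ∀ σ : L →+* ℂ, ‖σ (α : L)‖ ≤ X) :
    ((Ideal.absNorm (Ideal.span {α}) : ℕ) : ℝ) ≤ X ^ Module.finrank ℚ L := by
  rw [absNorm_eq_prod]
  calc ∏ σ : L →ₐ[ℚ] ℂ, ‖σ (α : L)‖ ≤ ∏ _σ : L →ₐ[ℚ] ℂ, X :=
        Finset.prod_le_prod (fun _ _ => norm_nonneg _) (fun σ _ => h σ.toRingHom)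
    _ = X ^ Module.finrank ℚ L := by
        rw [Finset.prod_const, Finset.card_univ, AlgHom.card]

theorem log_16 : 2 < Real.log 16 := by
  have h : (16 : ℝ) = 2 ^ 4 := by norm_num
  rw [h, Real.log_pow]
  have := Real.log_two_gt_d9
  push_cast
  linarith

theorem omg : S_OMG := by
  intro L _ _ K
  have hn0 : 0 < Module.finrank ℚ L := Module.finrank_pos
  obtain ⟨n, hn⟩ : ∃ n, n = Module.finrank ℚ L := ⟨_, rfl⟩
  rw [← hn] at hn0
  have hn1 : (1 : ℝ) ≤ n := by exact_mod_cast hn0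
  refine ⟨|K| + 4 * n, by positivity, fun Y α hY hα hσ => ?_⟩
  have hA : 2 < Real.log Y := log_16.trans_le (Real.log_le_log (by norm_num) hY)
  obtain ⟨A, hAA⟩ : ∃ A, A = Real.log Y := ⟨_, rfl⟩
  rw [← hAA] at hA ⊢
  have hB : 0 < Real.log A := Real.log_pos (by linarith)
  have hBA : Real.log A ≤ A := Real.log_le_self (by linarith)
  have h1 : (1 : ℝ) ≤ A / Real.log A := by
    rw [le_div_iff₀ hB]
    linarith
  have hN0 : Ideal.absNorm (Ideal.span {α}) ≠ 0 := by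
    rw [Ne, Ideal.absNorm_eq_zero_iff, Ideal.span_singleton_eq_bot]
    exact hα.ne
  have hlogN : Real.log (Ideal.absNorm (Ideal.span {α}) : ℕ) ≤ n * A := by
    have h2 := absNorm_le hσ
    rw [← hn] at h2
    have h3 := Real.log_le_log (by exact_mod_cast Nat.pos_of_ne_zero hN0) h2
    rw [Real.log_pow, ← hAA] at h3
    exact h3
  have hX : (1 : ℝ) < n * A := by nlinarith
  have h4 := Pool.Agent.TH358.SN.omega_le hN0 hX hlogN
  have h5 : Real.log A ≤ Real.log (n * A) := Real.log_le_log (by linarith) (by nlinarith)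
  have h6 : 4 * (n * A) / Real.log (n * A) ≤ 4 * (n * A) / Real.log A :=
    div_le_div_of_nonneg_left (by positivity) hB h5
  have h7 := hα.om
  have h8 : K ≤ |K| * (A / Real.log A) := by
    calc K ≤ |K| := le_abs_self K
      _ = |K| * 1 := (mul_one _).symm
      _ ≤ |K| * (A / Real.log A) := mul_le_mul_of_nonneg_left h1 (abs_nonneg K)
  calc (Om α : ℝ) ≤ K + _ := h7
    _ ≤ |K| * (A / Real.log A) + 4 * (n * A) / Real.log A := add_le_add h8 (h4.trans h6)
    _ = (|K| + 4 * n) * A / Real.log A := by ring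

end Pool.Agent.Q195.EA.Omg
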