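import Pool.Agent.Q161.EA.Stm
import Pool.Agent.Q195.EA.Omg

set_option autoImplicit false

/-!
# Project EA (helper161): job FAC
-/

namespace Pool.Agent.Q195.EA.Fac

open Finset NumberField IsDedekindDomain UniqueFactorizationMonoid
open Pool.Agent.Q161.EA

/-- the number of the ways to write a multiset as a sum of `k` multisets -/
theorem fac_multiset {β : Type} (k : ℕ) (s : Multiset β) :
    {f : Fin k → Multiset β | ∑ i, f i = s}.Finite ∧
      {f : Fin k → Multiset β | ∑ i, f i = s}.ncard ≤ k ^ Multiset.card s := by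
  classical
  induction s using Multiset.induction_on with
  | empty =>
    have h : {f : Fin k → Multiset β | ∑ i, f i = 0} ⊆ {fun _ => 0} := by
      intro f hf
      rw [Set.mem_singleton_iff]
      funext i
      have h1 : f i ≤ ∑ j, f j := Finset.single_le_sum (fun j _ => Multiset.zero_le _) (mem_univ i)
      rw [Set.mem_ofPred_eq] at hf
      rw [hf] at h1
      exact Multiset.le_zero.1 h1
    refine ⟨(Set.finite_singleton _).subset h, ?_⟩
    rw [Multiset.card_zero, pow_zero]
    exact (Set.ncard_le_ncard h (Set.finite_singleton _)).trans (Set.ncard_singleton _).le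
  | cons a t ih =>
    obtain ⟨ih1, ih2⟩ := ih
    let G : Fin k × (Fin k → Multiset β) → (Fin k → Multiset β) := fun p =>
      Function.update p.2 p.1 (a ::ₘ p.2 p.1)
    have h : {f : Fin k → Multiset β | ∑ i, f i = a ::ₘ t} ⊆
        G '' ((Set.univ : Set (Fin k)) ×ˢ {f : Fin k → Multiset β | ∑ i, f i = t}) := by
      intro f hf
      rw [Set.mem_ofPred_eq] at hf
      have h1 : a ∈ ∑ i, f i := by rw [hf]; exact Multiset.mem_cons_self a t
      rw [Multiset.mem_sum] at h1
      obtain ⟨i, _, hi⟩ := h1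
      have h2 : a ::ₘ (f i).erase a = f i := Multiset.cons_erase hi
      refine ⟨(i, Function.update f i ((f i).erase a)), ⟨Set.mem_univ _, ?_⟩, ?_⟩
      · rw [Set.mem_ofPred_eq]
        simp only
        have h3 : ∑ j, f j = f i + ∑ j ∈ univ.erase i, f j := by
          rw [← Finset.add_sum_erase univ f (mem_univ i)]
        have h4 : ∑ j, Function.update f i ((f i).erase a) j =
            (f i).erase a + ∑ j ∈ univ.erase i, f j := by
          rw [← Finset.add_sum_erase univ _ (mem_univ i), Function.update_self]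
          congr 1
          refine Finset.sum_congr rfl fun j hj => ?_
          rw [Function.update_of_ne (ne_of_mem_erase hj)]
        rw [h4]
        rw [h3, ← h2, Multiset.cons_add] at hf
        exact (Multiset.cons_inj_right a).1 hf
      · simp only [G]
        rw [Function.update_idem, Function.update_self, h2, Function.update_eq_self]
    have hfin : ((Set.univ : Set (Fin k)) ×ˢ {f : Fin k → Multiset β | ∑ i, f i = t}).Finite :=
      Set.finite_univ.prod ih1
    refine ⟨(hfin.image G).subset h, ?_⟩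
    refine (Set.ncard_le_ncard h (hfin.image G)).trans ?_
    refine (Set.ncard_image_le hfin).trans ?_
    rw [Set.ncard_prod, Set.ncard_univ, Nat.card_eq_fintype_card, Fintype.card_fin,
      Multiset.card_cons, pow_succ, mul_comm (k ^ _) k]
    exact Nat.mul_le_mul_left k ih2

variable {L : Type} [Field L] [NumberField L]

/-- the ratio of two balanced elements with the same norm -/
theorem ratio {K : ℝ} {α β : 𝓞 L} (hα : Nice K α) (hβ : Nice K β)
    (h : Ideal.absNorm (Ideal.span {α}) = Ideal.absNorm (Ideal.span {β})) (σ : L →+* ℂ) :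
    ‖σ (α : L)‖ ≤ K * ‖σ (β : L)‖ := by
  obtain ⟨n, hn⟩ : ∃ n, n = Module.finrank ℚ L := ⟨_, rfl⟩
  have hn0 : 0 < n := by rw [hn]; exact Module.finrank_pos
  obtain ⟨N, hN⟩ : ∃ N : ℝ, N = ((Ideal.absNorm (Ideal.span {β}) : ℕ) : ℝ) := ⟨_, rfl⟩
  have hN0 : 0 < N := by
    rw [hN, Nat.cast_pos, Nat.pos_iff_ne_zero, Ne, Ideal.absNorm_eq_zero_iff,
      Ideal.span_singleton_eq_bot]
    exact hβ.ne
  have h1 : ∀ τ : L →+* ℂ, ‖τ (β : L)‖ ^ n ≤ K * N := by
    intro τ
    rw [hn, hN]
    exact hβ.bal τ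
  have h2 : ‖σ (α : L)‖ ^ n ≤ K * N := by
    rw [hn, hN, ← h]
    exact hα.bal σ
  have hβ0 : (β : L) ≠ 0 := by
    have := hβ.ne
    exact_mod_cast this
  have hs0 : 0 < ‖σ (β : L)‖ := norm_pos_iff.2 ((map_ne_zero σ).2 hβ0)
  have hK0 : 0 < K := by
    have h3 : 0 < K * N := (pow_pos hs0 n).trans_le (h1 σ)
    exact pos_of_mul_pos_left h3 hN0.le
  -- the product of the other conjugates
  have h3 : N = ∏ τ : L →ₐ[ℚ] ℂ, ‖τ (β : L)‖ := by
    rw [hN]
    exact Pool.Agent.Q195.EA.Omg.absNorm_eq_prod β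
  have h4 : N ≤ ‖σ (β : L)‖ ^ n * K ^ (n - 1) := by
    classical
    have h5 : N ^ n = ∏ τ : L →ₐ[ℚ] ℂ, ‖τ (β : L)‖ ^ n := by
      rw [h3, Finset.prod_pow]
    have h6 : ∏ τ : L →ₐ[ℚ] ℂ, ‖τ (β : L)‖ ^ n ≤ ‖σ (β : L)‖ ^ n * (K * N) ^ (n - 1) := by
      rw [← Finset.mul_prod_erase univ _ (mem_univ σ.toRatAlgHom)]
      refine mul_le_mul (le_of_eq rfl) ?_ (Finset.prod_nonneg fun _ _ => by positivity) (by positivity)
      calc ∏ τ ∈ univ.erase σ.toRatAlgHom, ‖τ (β : L)‖ ^ n ≤
            ∏ _τ ∈ (univ : Finset (L →ₐ[ℚ] ℂ)).erase σ.toRatAlgHom, (K * N) :=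
            Finset.prod_le_prod (fun _ _ => by positivity) (fun τ _ => h1 τ.toRingHom)
        _ = (K * N) ^ (n - 1) := by
            rw [Finset.prod_const, card_erase_of_mem (mem_univ _), Finset.card_univ, AlgHom.card, hn]
    have h7 : N ^ n = N ^ (n - 1) * N := by
      rw [← pow_succ]
      congr 1
      omega
    rw [← h5, h7, mul_pow] at h6
    have h8 : 0 < N ^ (n - 1) := pow_pos hN0 _
    have h9 : N ^ (n - 1) * N ≤ N ^ (n - 1) * (‖σ (β : L)‖ ^ n * K ^ (n - 1)) := by
      calc N ^ (n - 1) * N ≤ _ := h6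
        _ = _ := by ring
    exact le_of_mul_le_mul_left h9 h8
  have h10 : ‖σ (α : L)‖ ^ n ≤ (K * ‖σ (β : L)‖) ^ n := by
    calc ‖σ (α : L)‖ ^ n ≤ K * N := h2
      _ ≤ K * (‖σ (β : L)‖ ^ n * K ^ (n - 1)) := mul_le_mul_of_nonneg_left h4 hK0.le
      _ = (K ^ (n - 1) * K) * ‖σ (β : L)‖ ^ n := by ring
      _ = (K * ‖σ (β : L)‖) ^ n := by
          rw [← pow_succ, Nat.sub_add_cancel hn0, mul_pow]
  exact le_of_pow_le_pow_left₀ hn0.ne' (by positivity) h10

/-- the number of the balanced elements with the same ideal -/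
theorem fibre (L : Type) [Field L] [NumberField L] (K : ℝ) : ∃ U : ℕ, 1 ≤ U ∧
    ∀ A : Finset (𝓞 L), (∀ α ∈ A, Nice K α) →
      (∀ α ∈ A, ∀ β ∈ A, Ideal.span {α} = Ideal.span {β}) → A.card ≤ U := by
  have hfin : {x : L | IsIntegral ℤ x ∧ ∀ φ : L →+* ℂ, ‖φ x‖ ≤ K}.Finite :=
    NumberField.Embeddings.finite_of_norm_le L ℂ K
  refine ⟨{x : L | IsIntegral ℤ x ∧ ∀ φ : L →+* ℂ, ‖φ x‖ ≤ K}.ncard + 1, by omega,
    fun A hA hs => ?_⟩
  rcases A.eq_empty_or_nonempty with h0 | ⟨β, hβ⟩
  · rw [h0]; simp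
  have hβ0 : (β : L) ≠ 0 := by
    have := (hA β hβ).ne
    exact_mod_cast this
  have h1 : (A : Set (𝓞 L)).ncard ≤ {x : L | IsIntegral ℤ x ∧ ∀ φ : L →+* ℂ, ‖φ x‖ ≤ K}.ncard := by
    refine Set.ncard_le_ncard_of_injOn (fun α => (α : L) / (β : L)) ?_ ?_ hfin
    · intro α hα
      rw [Finset.mem_coe] at hα
      have h2 := hs α hα β hβ
      have h3 : Associated β α := (Ideal.span_singleton_eq_span_singleton.1 h2).symm
      obtain ⟨u, hu⟩ := h3
      refine ⟨?_, fun φ => ?_⟩
      · have h4 : (α : L) / (β : L) = ((u : 𝓞 L) : L) := by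
          rw [← hu, RingOfIntegers.coe_eq_algebraMap (β * _), map_mul, ← RingOfIntegers.coe_eq_algebraMap, ← RingOfIntegers.coe_eq_algebraMap, mul_div_cancel_left₀ _ hβ0]
        rw [h4]
        exact RingOfIntegers.isIntegral_coe _
      · rw [map_div₀, norm_div, div_le_iff₀ (norm_pos_iff.2 ((map_ne_zero φ).2 hβ0))]
        exact ratio (hA α hα) (hA β hβ) (by rw [h2]) φ
    · intro α _ α' _ h
      simp only at h
      rw [div_left_inj' hβ0] at h
      exact_mod_cast h
  rw [Set.ncard_coe_finset] at h1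
  omega

open Classical in
theorem fac : S_FAC := by
  intro L _ _ K
  obtain ⟨U, hU1, hU⟩ := fibre L K
  refine ⟨U, by exact_mod_cast hU1, fun k A a hk hA => ?_⟩
  let X := (Fintype.piFinset (fun _ : Fin k => A)).filter (fun x => ∏ i, x i = a)
  let F : (Fin k → 𝓞 L) → (Fin k → Multiset (Ideal (𝓞 L))) := fun x i =>
    normalizedFactors (Ideal.span {x i})
  have hne : ∀ x ∈ X, ∀ i, Nice K (x i) := by
    intro x hx i
    exact hA _ (Fintype.mem_piFinset.1 (mem_filter.1 hx).1 i)
  have hsp : ∀ α : 𝓞 L, α ≠ 0 → Ideal.span {α} ≠ 0 := by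
    intro α hα
    rw [Ne, Ideal.zero_eq_bot, Ideal.span_singleton_eq_bot]
    exact hα
  have hsum : ∀ x : Fin k → 𝓞 L, (∀ i, x i ≠ 0) →
      ∑ i, F x i = normalizedFactors (Ideal.span {∏ i, x i}) := by
    intro x hx
    have h1 : ∀ s : Finset (Fin k), ∑ i ∈ s, F x i = normalizedFactors (Ideal.span {∏ i ∈ s, x i}) := by
      intro s
      induction s using Finset.induction_on with
      | empty =>
        rw [sum_empty, prod_empty, Ideal.span_singleton_one, ← Ideal.one_eq_top, normalizedFactors_one]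
      | insert i s hi ih =>
        rw [sum_insert hi, prod_insert hi, ← Ideal.span_singleton_mul_span_singleton,
          normalizedFactors_mul (hsp _ (hx i)) (hsp _ (prod_ne_zero_iff.2 fun j _ => hx j)), ih]
    exact h1 univ
  obtain ⟨hfin, hcard⟩ := fac_multiset k (normalizedFactors (Ideal.span {a}))
  have himg : ((X.image F : Finset _) : Set (Fin k → Multiset (Ideal (𝓞 L)))) ⊆
      {f : Fin k → Multiset (Ideal (𝓞 L)) | ∑ i, f i = normalizedFactors (Ideal.span {a})} := by
    intro f hf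
    rw [Finset.mem_coe, mem_image] at hf
    obtain ⟨x, hx, rfl⟩ := hf
    rw [Set.mem_ofPred_eq, hsum x fun i => (hne x hx i).ne, (mem_filter.1 hx).2]
  have h1 : (X.image F).card ≤ k ^ Om a := by
    rw [← Set.ncard_coe_finset]
    exact (Set.ncard_le_ncard himg hfin).trans hcard
  have h2 : ∀ f ∈ X.image F, #{x ∈ X | F x = f} ≤ U ^ k := by
    intro f _
    have h3 : {x ∈ X | F x = f} ⊆ Fintype.piFinset (fun i : Fin k =>
        A.filter (fun α => normalizedFactors (Ideal.span {α}) = f i)) := by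
      intro x hx
      rw [mem_filter] at hx
      rw [Fintype.mem_piFinset]
      intro i
      rw [mem_filter]
      refine ⟨Fintype.mem_piFinset.1 (mem_filter.1 hx.1).1 i, ?_⟩
      exact congrFun hx.2 i
    refine (card_le_card h3).trans ?_
    rw [Fintype.card_piFinset]
    refine (Finset.prod_le_prod' (g := fun _ : Fin k => U) fun i _ => ?_).trans ?_
    · refine hU _ (fun α hα => hA α (mem_filter.1 hα).1) fun α hα β hβ => ?_
      have h4 := (mem_filter.1 hα).2
      rw [← (mem_filter.1 hβ).2] at h4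
      have h5 := (associated_iff_normalizedFactors_eq_normalizedFactors
        (hsp _ (hA α (mem_filter.1 hα).1).ne) (hsp _ (hA β (mem_filter.1 hβ).1).ne)).2 h4
      exact associated_iff_eq.1 h5
    · rw [prod_const, card_univ, Fintype.card_fin]
  have h3 : X.card ≤ U ^ k * k ^ Om a :=
    (card_le_mul_card_image X (U ^ k) h2).trans (Nat.mul_le_mul_left _ h1)
  exact_mod_cast h3

end Pool.Agent.Q195.EA.Fac
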