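import Pool.Agent.Q161.EA.Stm
import Pool.Agent.Q277.OD.Cnt2

set_option autoImplicit false

/-!
# Project EA (helper161): job CNT1
-/

namespace Pool.Agent.Q195.EA.Cnt1

open Finset NumberField IsDedekindDomain
open Pool.Agent.Q51.EL Pool.Agent.Q161.OD Pool.Agent.Q161.EA Pool.Agent.Q247.EL Pool.Agent.Q277.OD

section

variable (L : Type) [Field L] [NumberField L] {l : ℕ}

/-- classes of the `α` in the prime `v0`, for a fixed `m` -/
def Sd (T : Set (𝓞 L × ℤ)) (m : ℤ) (v0 : VV L l) : Set (∀ v : VV L l, 𝓞 L ⧸ v.1.asIdeal) :=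
  {x | Ideal.absNorm v0.1.asIdeal = l ∧ ∃ α : 𝓞 L, (α, m) ∈ T ∧ α ∈ v0.1.asIdeal ∧
    (∀ v : VV L l, v ≠ v0 → α ∉ v.1.asIdeal) ∧ Th L α = x}

open Classical in
theorem Sd_card (hl : l.Prime) (hl2 : l ≠ 2) [Fintype (VV L l)] (T : Set (𝓞 L × ℤ)) (hT2 : P2 l T)
    (m : ℤ) (hm : ¬ (l : ℤ) ∣ m) (v0 : VV L l) :
    ((Sd L T m v0).ncard : ℝ) ≤ if Ideal.absNorm v0.1.asIdeal = l then
      ∏ v : VV L l,
        (if v = v0 then (1 : ℝ) else (Nat.card (𝓞 L ⧸ v.1.asIdeal) : ℝ) / 2) else 0 := by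
  have : Fact l.Prime := ⟨hl⟩
  have : ∀ v : VV L l, Finite (𝓞 L ⧸ v.1.asIdeal) := finite_k L
  have : ∀ v : VV L l, Fintype (𝓞 L ⧸ v.1.asIdeal) := fun v => Fintype.ofFinite _
  have : ∀ v : VV L l, IsDomain (𝓞 L ⧸ v.1.asIdeal) := fun v => by
    have := v.1.isPrime
    infer_instance
  by_cases hn : Ideal.absNorm v0.1.asIdeal = l
  swap
  · rw [if_neg hn]
    have : Sd L T m v0 = ∅ := by
      ext x
      simp [Sd, hn]
    rw [this]
    simp
  rw [if_pos hn]
  have hprod0 : 0 ≤ ∏ v : VV L l, (if v = v0 then (1 : ℝ) else (Nat.card (𝓞 L ⧸ v.1.asIdeal) : ℝ) / 2) := by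
    refine prod_nonneg fun v _ => ?_
    split_ifs <;> positivity
  by_cases hne : (Sd L T m v0).Nonempty
  swap
  · rw [Set.not_nonempty_iff_eq_empty] at hne
    rw [hne, Set.ncard_empty, Nat.cast_zero]
    exact hprod0
  obtain ⟨x', _, β', hβ'T, hβ'0, hβ'v, _⟩ := hne
  let Q : ∀ v : VV L l, Finset (𝓞 L ⧸ v.1.asIdeal) := fun v =>
    if v = v0 then {0} else (Set.toFinite ({x : 𝓞 L ⧸ v.1.asIdeal | x ≠ 0 ∧ ∃ s, x = s * s})).toFinset
  let F : (∀ v : VV L l, 𝓞 L ⧸ v.1.asIdeal) → (∀ v : VV L l, 𝓞 L ⧸ v.1.asIdeal) :=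
    fun q v => Ideal.Quotient.mk v.1.asIdeal β' *
      Ideal.Quotient.mk v.1.asIdeal ((m * m : ℤ) : 𝓞 L) * q v
  have hsub : Sd L T m v0 ⊆ ((Fintype.piFinset Q).image F :
      Finset (∀ v : VV L l, 𝓞 L ⧸ v.1.asIdeal)) := by
    rintro x ⟨_, β, hβT, hβ0, hβv, rfl⟩
    have key : ∀ v : VV L l, ∃ q : 𝓞 L ⧸ v.1.asIdeal, q ∈ Q v ∧
        Ideal.Quotient.mk v.1.asIdeal β' *
          Ideal.Quotient.mk v.1.asIdeal ((m * m : ℤ) : 𝓞 L) * q =
          Ideal.Quotient.mk v.1.asIdeal β := by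
      intro v
      by_cases hv : v = v0
      · refine ⟨0, ?_, ?_⟩
        · simp only [Q, if_pos hv]
          simp
        · rw [mul_zero, hv]
          exact ((Ideal.Quotient.eq_zero_iff_mem).2 hβ0).symm
      · have := v.1.isMaximal
        have hB' : Ideal.Quotient.mk v.1.asIdeal β' ≠ 0 := fun h =>
          hβ'v v hv ((Ideal.Quotient.eq_zero_iff_mem).1 h)
        have hB : Ideal.Quotient.mk v.1.asIdeal β ≠ 0 := fun h =>
          hβv v hv ((Ideal.Quotient.eq_zero_iff_mem).1 h)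
        have hE : Ideal.Quotient.mk v.1.asIdeal ((m * m : ℤ) : 𝓞 L) ≠ 0 := fun h => by
          have h1 := int_mem L hl v _ ((Ideal.Quotient.eq_zero_iff_mem).1 h)
          rcases (Nat.prime_iff_prime_int.1 hl).dvd_or_dvd h1 with h2 | h2
          · exact hm h2
          · exact hm h2
        obtain ⟨g, hg'⟩ := hT2.1 _ hβT _ hβ'T v0.1 v0.2 hβ0 hβ'0 v.1 v.2 (fun h => hv (Subtype.ext h))
        have h1 : Ideal.Quotient.mk v.1.asIdeal ((m * m : ℤ) : 𝓞 L) * Ideal.Quotient.mk v.1.asIdeal β *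
            Ideal.Quotient.mk v.1.asIdeal β' = Ideal.Quotient.mk v.1.asIdeal g ^ 2 := by
          rw [← map_mul, ← map_mul, ← map_pow]
          exact (Ideal.Quotient.eq).2 hg'
        obtain ⟨q, hq, hq2⟩ := solve (fun a ha => Ideal.Quotient.exists_inv ha) hE hB' hB h1
        refine ⟨q, ?_, hq2⟩
        simp only [Q, if_neg hv]
        rw [Set.Finite.mem_toFinset]
        exact hq
    choose q hq1 hq2 using key
    rw [Finset.coe_image]
    refine ⟨q, ?_, ?_⟩
    · rw [Finset.mem_coe]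
      exact Fintype.mem_piFinset.2 hq1
    · funext v
      exact hq2 v
  have h1 : (Sd L T m v0).ncard ≤ (Fintype.piFinset Q).card := by
    refine (Set.ncard_le_ncard hsub (Finset.finite_toSet _)).trans ?_
    rw [Set.ncard_coe_finset]
    exact card_image_le
  have h2 : ((Fintype.piFinset Q).card : ℝ) ≤
      ∏ v : VV L l, (if v = v0 then (1 : ℝ) else (Nat.card (𝓞 L ⧸ v.1.asIdeal) : ℝ) / 2) := by
    rw [Fintype.card_piFinset]
    push_cast
    refine prod_le_prod (fun v _ => Nat.cast_nonneg _) fun v _ => ?_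
    by_cases hv : v = v0
    · simp only [Q, if_pos hv]
      simp
    · simp only [Q, if_neg hv]
      have h20 : (2 : 𝓞 L ⧸ v.1.asIdeal) ≠ 0 := by
        intro h0
        have h3 : Ideal.Quotient.mk v.1.asIdeal ((2 : ℤ) : 𝓞 L) = 0 := by
          rw [Int.cast_ofNat, map_ofNat]
          exact h0
        have h4 := int_mem L hl v 2 ((Ideal.Quotient.eq_zero_iff_mem).1 h3)
        have h5 : l ∣ 2 := by exact_mod_cast h4
        exact hl2 ((Nat.prime_dvd_prime_iff_eq hl Nat.prime_two).1 h5)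
      have h3 := card_sq (𝓞 L ⧸ v.1.asIdeal) h20
      rw [Set.ncard_eq_toFinset_card _ (Set.toFinite _)] at h3
      exact h3
  exact le_trans (by exact_mod_cast h1) h2

end

open Classical in
theorem cnt1 : S_CNT1 := by
  intro L _ _ l hl hl2 hn2 hsq T hT1 hT2 m hm
  have : Fact l.Prime := ⟨hl⟩
  have := finite_VV L hl
  have : Fintype (VV L l) := Fintype.ofFinite _
  have : ∀ v : VV L l, Finite (𝓞 L ⧸ v.1.asIdeal) := finite_k L
  have : Finite (∀ v : VV L l, 𝓞 L ⧸ v.1.asIdeal) := inferInstance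
  obtain ⟨n, hn⟩ : ∃ n, n = Module.finrank ℚ L := ⟨_, rfl⟩
  obtain ⟨r, hr⟩ : ∃ r, r = Fintype.card (VV L l) := ⟨_, rfl⟩
  obtain ⟨N, hN⟩ : ∃ N, N = N1 L l := ⟨_, rfl⟩
  rw [← hn] at hn2 ⊢
  have hl0 : (0 : ℝ) < l := by exact_mod_cast hl.pos
  have hl1 : (1 : ℝ) ≤ l := by exact_mod_cast hl.one_lt.le
  have hcardk := prod_card L hl hsq
  have hcardk' : ∏ v : VV L l, (Nat.card (𝓞 L ⧸ v.1.asIdeal) : ℝ) = (l : ℝ) ^ n := by
    rw [hn]
    exact_mod_cast hcardk
  -- number of the primes of norm `l`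
  have hNW : N = (univ.filter (fun v : VV L l => Ideal.absNorm v.1.asIdeal = l)).card := by
    rw [hN]
    unfold N1
    rw [← Fintype.card_subtype, ← Nat.card_eq_fintype_card]
    refine Nat.card_congr
      { toFun := fun v => ⟨⟨v.1, ?_⟩, v.2⟩
        invFun := fun v => ⟨v.1.1, v.2⟩
        left_inv := fun v => rfl
        right_inv := fun v => rfl }
    have h := Ideal.absNorm_mem v.1.asIdeal
    rw [v.2] at h
    exact h
  have hNr : N ≤ r := by
    rw [hNW, hr]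
    exact card_filter_le _ _
  have hrn : r ≤ n := by
    have h1 : l ^ r ≤ l ^ n := by
      rw [hn, ← hcardk, hr, ← Finset.card_univ, ← prod_const]
      exact prod_le_prod' fun v _ => le_card L hl v
    exact (Nat.pow_le_pow_iff_right hl.one_lt).1 h1
  have hNrn : N = r → N = n := by
    intro h
    have h1 : univ.filter (fun v : VV L l => Ideal.absNorm v.1.asIdeal = l) = univ := by
      apply Finset.eq_univ_of_card
      rw [← hNW, h, hr]
    have h2 : ∏ v : VV L l, Nat.card (𝓞 L ⧸ v.1.asIdeal) = ∏ _v : VV L l, l := by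
      refine prod_congr rfl fun v _ => ?_
      have h3 : v ∈ univ.filter (fun v : VV L l => Ideal.absNorm v.1.asIdeal = l) := by
        rw [h1]
        exact mem_univ _
      rw [mem_filter] at h3
      exact (card_eq_norm L v).trans h3.2
    rw [hcardk, prod_const, card_univ, ← hr, ← hn] at h2
    rw [h]
    exact (Nat.pow_right_injective hl.two_le h2).symm
  -- pass to the product of the residue fields
  obtain ⟨S, hS⟩ : ∃ S : Set (𝓞 L), S = {α : 𝓞 L | (α, m) ∈ T} := ⟨_, rfl⟩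
  rw [← hS]
  have hA : (Ideal.Quotient.mk (Ideal.span {(l : 𝓞 L)}) '' S).ncard ≤ (Th L (l := l) '' S).ncard := by
    let h : (∀ v : VV L l, 𝓞 L ⧸ v.1.asIdeal) → 𝓞 L ⧸ Ideal.span {(l : 𝓞 L)} := fun y =>
      if hy : ∃ β, Th L β = y then Ideal.Quotient.mk _ hy.choose else 0
    have h1 : ∀ β, h (Th L β) = Ideal.Quotient.mk (Ideal.span {(l : 𝓞 L)}) β := by
      intro β
      have hy : ∃ β', Th L (l := l) β' = Th L β := ⟨β, rfl⟩
      simp only [h]
      rw [dif_pos hy]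
      have h2 := hy.choose_spec
      rw [Ideal.Quotient.eq, ← iInf_VV L hl hsq, Ideal.mem_iInf]
      intro v
      exact (Ideal.Quotient.eq).1 (congrFun h2 v)
    have h2 : Ideal.Quotient.mk (Ideal.span {(l : 𝓞 L)}) '' S = h '' (Th L (l := l) '' S) := by
      rw [Set.image_image]
      exact Set.image_congr fun β _ => (h1 β).symm
    rw [h2]
    exact Set.ncard_image_le (Set.toFinite _)
  have hB : Th L (l := l) '' S ⊆ S1 L l ∪ ⋃ v0 : VV L l, Sd L T m v0 := by
    rintro _ ⟨β, hβ, rfl⟩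
    rw [hS] at hβ
    rcases hT1 (β, m) hβ with ⟨_, h | ⟨v0, hv0, hn0, hβ0, h⟩⟩ | ⟨hm', _⟩
    · left
      intro v h0
      exact h v.1 v.2 ((Ideal.Quotient.eq_zero_iff_mem).1 h0)
    · right
      rw [Set.mem_iUnion]
      refine ⟨⟨v0, hv0⟩, hn0, β, hβ, hβ0, ?_, rfl⟩
      intro v hv
      exact h v.1 v.2 (fun h' => hv (Subtype.ext h'))
    · exact absurd hm' hm
  have hC : ((Ideal.Quotient.mk (Ideal.span {(l : 𝓞 L)}) '' S).ncard : ℝ) ≤
      (S1 L l).ncard + ∑ v0 : VV L l, ((Sd L T m v0).ncard : ℝ) := by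
    have h1 : (Ideal.Quotient.mk (Ideal.span {(l : 𝓞 L)}) '' S).ncard ≤
        (S1 L l).ncard + ∑ v0 : VV L l, (Sd L T m v0).ncard := by
      refine hA.trans ((Set.ncard_le_ncard hB (Set.toFinite _)).trans ?_)
      refine (Set.ncard_union_le _ _).trans ?_
      exact Nat.add_le_add_left (Set.ncard_iUnion_le_of_fintype _) _
    exact_mod_cast h1
  -- first kind
  have hD : ((S1 L l).ncard : ℝ) ≤ (l : ℝ) ^ n * (1 - 1 / (l : ℝ)) ^ N := by
    refine (S1_card L hl).trans (le_of_eq ?_)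
    rw [prod_mul_distrib, hcardk', ← prod_filter, prod_const, ← hNW]
  -- second kind
  have hE : ∑ v0 : VV L l, ((Sd L T m v0).ncard : ℝ) ≤ N * ((l : ℝ) ^ n * (2 / 2 ^ r / l)) := by
    have h1 : ∀ v0 : VV L l, ((Sd L T m v0).ncard : ℝ) ≤
        if Ideal.absNorm v0.1.asIdeal = l then (l : ℝ) ^ n * (2 / 2 ^ r / l) else 0 := by
      intro v0
      refine (Sd_card L hl hl2 T hT2 m hm v0).trans ?_
      split_ifs with h
      · have h5 : (Nat.card (𝓞 L ⧸ v0.1.asIdeal) : ℝ) = l := by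
          exact_mod_cast (card_eq_norm L v0).trans h
        have h2 : (∏ v : VV L l, (if v = v0 then (1 : ℝ) else (Nat.card (𝓞 L ⧸ v.1.asIdeal) : ℝ) / 2)) *
            ((l : ℝ) / 2) = (l : ℝ) ^ n / 2 ^ r := by
          have h3 : ∏ v : VV L l, ((Nat.card (𝓞 L ⧸ v.1.asIdeal) : ℝ) / 2) = (l : ℝ) ^ n / 2 ^ r := by
            rw [prod_div_distrib, hcardk', prod_const, card_univ, hr]
          rw [← h3, ← h5]
          have h4 : ∏ v : VV L l, (if v = v0 then (Nat.card (𝓞 L ⧸ v.1.asIdeal) : ℝ) / 2 else 1) =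
              (Nat.card (𝓞 L ⧸ v0.1.asIdeal) : ℝ) / 2 := by
            rw [prod_ite_eq' univ v0]
            simp
          rw [← h4, ← prod_mul_distrib]
          refine prod_congr rfl fun v _ => ?_
          split_ifs <;> ring
        have h6 : ∏ v : VV L l, (if v = v0 then (1 : ℝ) else (Nat.card (𝓞 L ⧸ v.1.asIdeal) : ℝ) / 2) =
            (l : ℝ) ^ n / 2 ^ r / (l / 2) := by
          rw [eq_div_iff (by positivity)]
          exact h2
        rw [h6]
        apply le_of_eq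
        field_simp
      · exact le_refl _
    refine (sum_le_sum fun v0 _ => h1 v0).trans (le_of_eq ?_)
    rw [← sum_filter, sum_const, ← hNW, nsmul_eq_mul]
  -- the constant
  have hF : (N : ℝ) * (2 / 2 ^ r) ≤ N / 2 := by
    rcases Nat.eq_zero_or_pos N with h0 | h0
    · rw [h0]; simp
    · have h3 : 2 ≤ r := by
        by_contra h4
        have h5 : N = r := by omega
        have h6 := hNrn h5
        omega
      have h4 : (2 : ℝ) ^ 2 ≤ 2 ^ r := pow_le_pow_right₀ (by norm_num) h3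
      rw [div_eq_mul_one_div (N : ℝ) 2]
      refine mul_le_mul_of_nonneg_left ?_ (Nat.cast_nonneg _)
      rw [div_le_div_iff₀ (by positivity) (by norm_num)]
      linarith
  have hG := bern (1 / (l : ℝ)) (by positivity) (by rw [div_le_one hl0]; exact hl1) N
  have hNn : (N : ℝ) ^ 2 ≤ ((n : ℝ) + 1) ^ 2 := by
    have : (N : ℝ) ≤ n := by exact_mod_cast hNr.trans hrn
    exact pow_le_pow_left₀ (Nat.cast_nonneg _) (by linarith) 2
  refine (hC.trans (add_le_add hD hE)).trans ?_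
  have e1 : (N : ℝ) * ((l : ℝ) ^ n * (2 / 2 ^ r / l)) = (l : ℝ) ^ n * (((N : ℝ) * (2 / 2 ^ r)) / l) := by ring
  rw [e1, ← mul_add]
  refine mul_le_mul_of_nonneg_left ?_ (by positivity)
  have h7 : ((N : ℝ) * (2 / 2 ^ r)) / l ≤ N / 2 / l := div_le_div_of_nonneg_right hF hl0.le
  have h8 : (N : ℝ) ^ 2 * (1 / (l : ℝ)) ^ 2 ≤ ((n : ℝ) + 1) ^ 2 / (l : ℝ) ^ 2 := by
    rw [one_div, inv_pow, ← div_eq_mul_inv]
    exact div_le_div_of_nonneg_right hNn (by positivity)
  rw [← hN]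
  have e2 : (N : ℝ) / (2 * l) = N * (1 / l) - N / 2 / l := by
    field_simp
    ring
  rw [e2]
  linarith

end Pool.Agent.Q195.EA.Cnt1
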